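import Mathlib

set_option autoImplicit false

/-!
# Reptiles in the plane: definitions

The Euclidean plane is `ℂ` with its usual distance.
-/

namespace Pool.Agent.K7.H21.Rep

open Set
open scoped Pointwise

/-- A tile: a bounded set which is the closure of its interior. -/
def IsTile (X : Set ℂ) : Prop := Bornology.IsBounded X ∧ closure (interior X) = X

/-- `X` is an `n`-reptile: `n ≥ 2`, `X` is a tile, and `X` is the union of `n` congruent copies of
`n ^ (-1/2) X`, which have pairwise disjoint interiors. -/
def IsNReptile (n : ℕ) (X : Set ℂ) : Prop :=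
  2 ≤ n ∧ IsTile X ∧ ∃ g : Fin n → (ℂ ≃ᵢ ℂ),
    X = ⋃ i, g i '' ((1 / √(n : ℝ)) • X) ∧
    ∀ i j, i ≠ j → Disjoint (interior (g i '' ((1 / √(n : ℝ)) • X)))
      (interior (g j '' ((1 / √(n : ℝ)) • X)))

/-- `X` has a hole: the complement of `X` has a bounded connected component. -/
def HasHole (X : Set ℂ) : Prop := ∃ x ∈ Xᶜ, Bornology.IsBounded (connectedComponentIn Xᶜ x)

end Pool.Agent.K7.H21.Rep
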