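import Pool.Agent.K7.H21.Rep.Defs

set_option autoImplicit false
set_option linter.unusedSimpArgs false

/-!
# The dragon of Lévy is a 2-reptile with a hole
-/

namespace Pool.Agent.K7.H21.Rep

open Set Complex MeasureTheory
open scoped Pointwise

namespace Levy

/-- `f₁ z = z (1 + i) / 2` -/
noncomputable def f1 (z : ℂ) : ℂ := z * ((1 + I) / 2)
/-- `f₂ z = (1 + i) / 2 + z (1 - i) / 2` -/
noncomputable def f2 (z : ℂ) : ℂ := (1 + I) / 2 + z * ((1 - I) / 2)

lemma f1_re (z : ℂ) : (f1 z).re = (z.re - z.im) / 2 := by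
  simp [f1, Complex.mul_re, Complex.div_re, Complex.normSq]; ring
lemma f1_im (z : ℂ) : (f1 z).im = (z.re + z.im) / 2 := by
  simp [f1, Complex.mul_im, Complex.div_re, Complex.div_im, Complex.normSq]; ring
lemma f2_re (z : ℂ) : (f2 z).re = 1 / 2 + (z.re + z.im) / 2 := by
  simp [f2, Complex.mul_re, Complex.div_re, Complex.div_im, Complex.normSq]; ring
lemma f2_im (z : ℂ) : (f2 z).im = 1 / 2 + (z.im - z.re) / 2 := by
  simp [f2, Complex.mul_im, Complex.div_re, Complex.div_im, Complex.normSq]; ring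

/-- the octagon -/
def B : Set ℂ := {z | (-1/2 ≤ z.re ∧ z.re ≤ 3/2) ∧ (-1/4 ≤ z.im ∧ z.im ≤ 1) ∧
  (-1/2 ≤ z.re + z.im ∧ z.re + z.im ≤ 2) ∧ (-3/2 ≤ z.im - z.re ∧ z.im - z.re ≤ 1)}

/-- the operator of the iterated function system -/
def Ph (K : Set ℂ) : Set ℂ := f1 '' K ∪ f2 '' K

lemma Ph_mono {K K' : Set ℂ} (h : K ⊆ K') : Ph K ⊆ Ph K' :=
  union_subset_union (image_mono h) (image_mono h)

lemma Ph_B : Ph B ⊆ B := by
  rintro z (⟨w, ⟨⟨h1, h2⟩, ⟨h3, h4⟩, ⟨h5, h6⟩, ⟨h7, h8⟩⟩, rfl⟩ |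
    ⟨w, ⟨⟨h1, h2⟩, ⟨h3, h4⟩, ⟨h5, h6⟩, ⟨h7, h8⟩⟩, rfl⟩)
  · simp only [B, mem_ofPred_eq, f1_re, f1_im]
    refine ⟨⟨?_, ?_⟩, ⟨?_, ?_⟩, ⟨?_, ?_⟩, ⟨?_, ?_⟩⟩ <;> linarith
  · simp only [B, mem_ofPred_eq, f2_re, f2_im]
    refine ⟨⟨?_, ?_⟩, ⟨?_, ?_⟩, ⟨?_, ?_⟩, ⟨?_, ?_⟩⟩ <;> linarith

lemma f1_cont : Continuous f1 := by unfold f1; fun_prop
lemma f2_cont : Continuous f2 := by unfold f2; fun_prop

lemma B_closed : IsClosed B := by
  unfold B
  have c1 : Continuous fun z : ℂ => z.re := Complex.continuous_re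
  have c2 : Continuous fun z : ℂ => z.im := Complex.continuous_im
  exact (((isClosed_le continuous_const c1).inter (isClosed_le c1 continuous_const))).inter
    ((((isClosed_le continuous_const c2).inter (isClosed_le c2 continuous_const))).inter
    ((((isClosed_le continuous_const (c1.add c2)).inter
      (isClosed_le (c1.add c2) continuous_const))).inter
    (((isClosed_le continuous_const (c2.sub c1)).inter (isClosed_le (c2.sub c1) continuous_const)))))

lemma B_bounded : Bornology.IsBounded B := by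
  rw [Metric.isBounded_iff_subset_closedBall 0]
  refine ⟨3, ?_⟩
  rintro z ⟨⟨h1, h2⟩, ⟨h3, h4⟩, -, -⟩
  rw [mem_closedBall_zero_iff]
  refine (Complex.norm_le_abs_re_add_abs_im z).trans ?_
  have a1 : |z.re| ≤ 3 / 2 := abs_le.2 ⟨by linarith, h2⟩
  have a2 : |z.im| ≤ 1 := abs_le.2 ⟨by linarith, h4⟩
  linarith

lemma B_compact : IsCompact B := Metric.isCompact_of_isClosed_isBounded B_closed B_bounded

/-- the approximations -/
def A (m : ℕ) : Set ℂ := Ph^[m] B

lemma A_zero : A 0 = B := rfl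
lemma A_succ (m : ℕ) : A (m + 1) = Ph (A m) := by
  unfold A; rw [Function.iterate_succ_apply']

lemma A_compact (m : ℕ) : IsCompact (A m) := by
  induction m with
  | zero => exact B_compact
  | succ m ih => rw [A_succ]; exact (ih.image f1_cont).union (ih.image f2_cont)

lemma A_anti_succ (m : ℕ) : A (m + 1) ⊆ A m := by
  induction m with
  | zero => rw [A_succ, A_zero]; exact Ph_B
  | succ m ih =>
    have h := Ph_mono ih
    rwa [← A_succ (m + 1), ← A_succ m] at h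

lemma A_anti : Antitone A := antitone_nat_of_succ_le A_anti_succ

/-- the dragon -/
def L : Set ℂ := ⋂ m, A m

lemma L_compact : IsCompact L :=
  Metric.isCompact_of_isClosed_isBounded (isClosed_iInter fun m => (A_compact m).isClosed)
    (B_bounded.subset (iInter_subset _ 0))

lemma sub_L {K : Set ℂ} (h1 : K ⊆ B) (h2 : K ⊆ Ph K) : K ⊆ L := by
  refine subset_iInter fun m => ?_
  induction m with
  | zero => exact h1
  | succ m ih => rw [A_succ]; exact h2.trans (Ph_mono ih)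

lemma L_eq : L = Ph L := by
  apply Subset.antisymm
  · intro x hx
    have hx' : ∀ m, x ∈ Ph (A m) := fun m => by
      have := mem_iInter.1 hx (m + 1); rwa [A_succ] at this
    by_cases h : ∀ m, x ∈ f1 '' A m
    · left
      obtain ⟨y, -, hy⟩ := h 0
      refine ⟨y, mem_iInter.2 fun m => ?_, hy⟩
      obtain ⟨y', h1, h2⟩ := h m
      have : y' = y := by
        have h3 : f1 y' = f1 y := h2.trans hy.symm
        have e1 := congrArg Complex.re h3
        have e2 := congrArg Complex.im h3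
        simp only [f1_re, f1_im] at e1 e2
        exact Complex.ext (by linarith) (by linarith)
      rwa [← this]
    · push Not at h
      obtain ⟨m0, hm0⟩ := h
      right
      have h' : ∀ m, x ∈ f2 '' A (m0 + m) := fun m => by
        rcases hx' (m0 + m) with h1 | h1
        · exact absurd (image_mono (A_anti (Nat.le_add_right m0 m)) h1) hm0
        · exact h1
      obtain ⟨y, -, hy⟩ := h' 0
      refine ⟨y, mem_iInter.2 fun m => ?_, hy⟩
      obtain ⟨y', h1, h2⟩ := h' m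
      have : y' = y := by
        have h3 : f2 y' = f2 y := h2.trans hy.symm
        have e1 := congrArg Complex.re h3
        have e2 := congrArg Complex.im h3
        simp only [f2_re, f2_im] at e1 e2
        exact Complex.ext (by linarith) (by linarith)
      rw [← this]
      exact A_anti (Nat.le_add_left m m0) h1
  · refine subset_iInter fun m => ?_
    refine Subset.trans ?_ (A_anti_succ m)
    rw [A_succ]
    exact Ph_mono (iInter_subset _ m)

lemma f1_mem {z : ℂ} (h : z ∈ L) : f1 z ∈ L := by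
  rw [L_eq]; exact Or.inl ⟨z, h, rfl⟩
lemma f2_mem {z : ℂ} (h : z ∈ L) : f2 z ∈ L := by
  rw [L_eq]; exact Or.inr ⟨z, h, rfl⟩

lemma zero_mem : (0 : ℂ) ∈ L := by
  refine sub_L (K := {0}) ?_ ?_ rfl
  · rintro z rfl
    simp only [B, mem_ofPred_eq, Complex.zero_re, Complex.zero_im]
    norm_num
  · rintro z rfl
    left
    exact ⟨0, rfl, by simp [f1]⟩

/-! ### The hole -/

/-- the top segment and its two images -/
def K0 : Set ℂ := {z | (z.im = 1 ∧ 0 ≤ z.re ∧ z.re ≤ 1) ∨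
  (z.im - z.re = 1 ∧ -1/2 ≤ z.re ∧ z.re ≤ 0) ∨ (z.re + z.im = 2 ∧ 1 ≤ z.re ∧ z.re ≤ 3/2)}

lemma K0_L : K0 ⊆ L := by
  apply sub_L
  · rintro z (⟨h1, h2, h3⟩ | ⟨h1, h2, h3⟩ | ⟨h1, h2, h3⟩)
    all_goals
      simp only [B, mem_ofPred_eq]
      refine ⟨⟨?_, ?_⟩, ⟨?_, ?_⟩, ⟨?_, ?_⟩, ⟨?_, ?_⟩⟩ <;> linarith
  · rintro z (⟨h1, h2, h3⟩ | ⟨h1, h2, h3⟩ | ⟨h1, h2, h3⟩)
    · rcases le_total z.re (1/2) with h4 | h4
      · left
        refine ⟨⟨z.re + z.im, z.im - z.re⟩, ?_, ?_⟩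
        · right; right
          refine ⟨?_, ?_, ?_⟩ <;> dsimp only <;> linarith
        · apply Complex.ext
          · rw [f1_re]; dsimp only; ring
          · rw [f1_im]; dsimp only; ring
      · right
        refine ⟨⟨z.re - z.im, z.re + z.im - 1⟩, ?_, ?_⟩
        · right; left
          refine ⟨?_, ?_, ?_⟩ <;> dsimp only <;> linarith
        · apply Complex.ext
          · rw [f2_re]; dsimp only; ring
          · rw [f2_im]; dsimp only; ring
    · left
      refine ⟨⟨z.re + z.im, z.im - z.re⟩, ?_, ?_⟩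
      · left
        refine ⟨?_, ?_, ?_⟩ <;> dsimp only <;> linarith
      · apply Complex.ext
        · rw [f1_re]; dsimp only; ring
        · rw [f1_im]; dsimp only; ring
    · right
      refine ⟨⟨z.re - z.im, z.re + z.im - 1⟩, ?_, ?_⟩
      · left
        refine ⟨?_, ?_, ?_⟩ <;> dsimp only <;> linarith
      · apply Complex.ext
        · rw [f2_re]; dsimp only; ring
        · rw [f2_im]; dsimp only; ring

/-- the upper half of the boundary of the octagon -/
lemma H_L {s t : ℝ} (ht : 0 ≤ t) (h : (s = -1/2 ∧ t ≤ 1/2) ∨ (s = 3/2 ∧ t ≤ 1/2) ∨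
    (t = 1 ∧ 0 ≤ s ∧ s ≤ 1) ∨ (t - s = 1 ∧ s ≤ 0 ∧ -1/2 ≤ s) ∨ (s + t = 2 ∧ 1 ≤ s ∧ s ≤ 3/2)) :
    (⟨s, t⟩ : ℂ) ∈ L := by
  rcases h with ⟨h1, h2⟩ | ⟨h1, h2⟩ | ⟨h1, h2, h3⟩ | ⟨h1, h2, h3⟩ | ⟨h1, h2, h3⟩
  · have h4 : (⟨s, t⟩ : ℂ) = f1 ⟨s + t, t - s⟩ := by
      apply Complex.ext
      · rw [f1_re]; dsimp only; ring
      · rw [f1_im]; dsimp only; ring
    rw [h4]
    apply f1_mem
    apply K0_L
    right; left
    refine ⟨?_, ?_, ?_⟩ <;> dsimp only <;> linarith
  · have h4 : (⟨s, t⟩ : ℂ) = f2 ⟨s - t, s + t - 1⟩ := by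
      apply Complex.ext
      · rw [f2_re]; dsimp only; ring
      · rw [f2_im]; dsimp only; ring
    rw [h4]
    apply f2_mem
    apply K0_L
    right; right
    refine ⟨?_, ?_, ?_⟩ <;> dsimp only <;> linarith
  · exact K0_L (Or.inl ⟨h1, h2, h3⟩)
  · exact K0_L (Or.inr (Or.inl ⟨h1, h3, h2⟩))
  · exact K0_L (Or.inr (Or.inr ⟨h1, h2, h3⟩))

/-- the two small copies -/
lemma copy1 {w : ℂ} (h : w ∈ L) : (⟨1/2 - w.im / 4, 1/2 + w.re / 4⟩ : ℂ) ∈ L := by
  have h4 : (⟨1/2 - w.im / 4, 1/2 + w.re / 4⟩ : ℂ) = f2 (f1 (f1 (f1 w))) := by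
    apply Complex.ext
    · simp only [f2_re, f1_re, f1_im]; ring
    · simp only [f2_im, f1_re, f1_im]; ring
  rw [h4]
  exact f2_mem (f1_mem (f1_mem (f1_mem h)))

lemma copy2 {w : ℂ} (h : w ∈ L) : (⟨1/2 + w.im / 4, 3/4 - w.re / 4⟩ : ℂ) ∈ L := by
  have h4 : (⟨1/2 + w.im / 4, 3/4 - w.re / 4⟩ : ℂ) = f1 (f2 (f2 (f2 w))) := by
    apply Complex.ext
    · simp only [f1_re, f2_re, f2_im]; ring
    · simp only [f1_im, f2_re, f2_im]; ring
  rw [h4]
  exact f1_mem (f2_mem (f2_mem (f2_mem h)))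

/-- the gauge of the small octagon -/
noncomputable def N (z : ℂ) : ℝ :=
  max (max (4 * |z.re - 1/2|) (4 * |z.im - 5/8|)) (8/3 * (|z.re - 1/2| + |z.im - 5/8|))

lemma N_cont : Continuous N := by unfold N; fun_prop

lemma ring_L {z : ℂ} (h : N z = 1) : z ∈ L := by
  obtain ⟨x, y⟩ := z
  unfold N at h
  dsimp only at h
  set X := x - 1/2 with hX
  set Y := y - 5/8 with hY
  have h1 : 4 * |X| ≤ 1 := by
    have := le_max_left (4 * |X|) (4 * |Y|)
    have := le_max_left (max (4 * |X|) (4 * |Y|)) (8/3 * (|X| + |Y|))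
    linarith
  have h2 : 4 * |Y| ≤ 1 := by
    have := le_max_right (4 * |X|) (4 * |Y|)
    have := le_max_left (max (4 * |X|) (4 * |Y|)) (8/3 * (|X| + |Y|))
    linarith
  have h3 : 8/3 * (|X| + |Y|) ≤ 1 := by
    have := le_max_right (max (4 * |X|) (4 * |Y|)) (8/3 * (|X| + |Y|))
    linarith
  have h4 : 4 * |X| = 1 ∨ 4 * |Y| = 1 ∨ 8/3 * (|X| + |Y|) = 1 := by
    rcases max_choice (max (4 * |X|) (4 * |Y|)) (8/3 * (|X| + |Y|)) with h5 | h5
    · rcases max_choice (4 * |X|) (4 * |Y|) with h6 | h6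
      · left; rw [← h6, ← h5]; exact h
      · right; left; rw [← h6, ← h5]; exact h
    · right; right; rw [← h5]; exact h
  rcases le_total X 0 with hx | hx
  · -- left half
    have e : (⟨x, y⟩ : ℂ) = ⟨1/2 - (-4 * X) / 4, 1/2 + (4 * Y + 1/2) / 4⟩ := by
      rw [hX, hY]; apply Complex.ext <;> dsimp only <;> ring
    rw [e]
    refine copy1 (w := ⟨4 * Y + 1/2, -4 * X⟩) (H_L (by linarith) ?_)
    rw [abs_of_nonpos hx] at h1 h3 h4
    rcases le_total Y 0 with hy | hy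
    · rw [abs_of_nonpos hy] at h2 h3 h4
      rcases h4 with h4 | h4 | h4
      · right; right; left; refine ⟨?_, ?_, ?_⟩ <;> linarith
      · left; refine ⟨?_, ?_⟩ <;> linarith
      · right; right; right; left; refine ⟨?_, ?_, ?_⟩ <;> linarith
    · rw [abs_of_nonneg hy] at h2 h3 h4
      rcases h4 with h4 | h4 | h4
      · right; right; left; refine ⟨?_, ?_, ?_⟩ <;> linarith
      · right; left; refine ⟨?_, ?_⟩ <;> linarith
      · right; right; right; right; refine ⟨?_, ?_, ?_⟩ <;> linarith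
  · have e : (⟨x, y⟩ : ℂ) = ⟨1/2 + (4 * X) / 4, 3/4 - (1/2 - 4 * Y) / 4⟩ := by
      rw [hX, hY]; apply Complex.ext <;> dsimp only <;> ring
    rw [e]
    refine copy2 (w := ⟨1/2 - 4 * Y, 4 * X⟩) (H_L (by linarith) ?_)
    rw [abs_of_nonneg hx] at h1 h3 h4
    rcases le_total Y 0 with hy | hy
    · rw [abs_of_nonpos hy] at h2 h3 h4
      rcases h4 with h4 | h4 | h4
      · right; right; left; refine ⟨?_, ?_, ?_⟩ <;> linarith
      · right; left; refine ⟨?_, ?_⟩ <;> linarith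
      · right; right; right; right; refine ⟨?_, ?_, ?_⟩ <;> linarith
    · rw [abs_of_nonneg hy] at h2 h3 h4
      rcases h4 with h4 | h4 | h4
      · right; right; left; refine ⟨?_, ?_, ?_⟩ <;> linarith
      · left; refine ⟨?_, ?_⟩ <;> linarith
      · right; right; right; left; refine ⟨?_, ?_, ?_⟩ <;> linarith

/-- a point in `L` has a preimage in `L` -/
lemma pre {x y : ℝ} (h : (⟨x, y⟩ : ℂ) ∈ L) :
    (⟨x + y, y - x⟩ : ℂ) ∈ L ∨ (⟨x - y, x + y - 1⟩ : ℂ) ∈ L := by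
  rw [L_eq] at h
  rcases h with ⟨w, hw, he⟩ | ⟨w, hw, he⟩
  · left
    have e1 := congrArg Complex.re he
    have e2 := congrArg Complex.im he
    rw [f1_re] at e1
    rw [f1_im] at e2
    dsimp only at e1 e2
    have : w = ⟨x + y, y - x⟩ := Complex.ext (by dsimp only; linarith) (by dsimp only; linarith)
    rwa [← this]
  · right
    have e1 := congrArg Complex.re he
    have e2 := congrArg Complex.im he
    rw [f2_re] at e1
    rw [f2_im] at e2
    dsimp only at e1 e2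
    have : w = ⟨x - y, x + y - 1⟩ := Complex.ext (by dsimp only; linarith) (by dsimp only; linarith)
    rwa [← this]

lemma in_B {x y : ℝ} (h : (⟨x, y⟩ : ℂ) ∈ L) : (-1/2 ≤ x ∧ x ≤ 3/2) ∧ (-1/4 ≤ y ∧ y ≤ 1) ∧
    (-1/2 ≤ x + y ∧ x + y ≤ 2) ∧ (-3/2 ≤ y - x ∧ y - x ≤ 1) :=
  (iInter_subset _ 0 h : (⟨x, y⟩ : ℂ) ∈ B)

lemma half_not : (⟨1/2, 0⟩ : ℂ) ∉ L := by
  intro h
  rcases pre h with h | h
  · have := in_B h; norm_num at this
  · have := in_B h; norm_num at this

lemma not1 : (⟨3/4, 1/4⟩ : ℂ) ∉ L := by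
  intro h
  rcases pre h with h | h
  · have := in_B h; norm_num at this
  · apply half_not; norm_num at h ⊢; exact h

lemma not2 : (⟨1, 1/4⟩ : ℂ) ∉ L := by
  intro h
  rcases pre h with h | h
  · have := in_B h; norm_num at this
  · apply not1; norm_num at h ⊢; exact h

lemma not3 : (⟨9/8, 1/8⟩ : ℂ) ∉ L := by
  intro h
  rcases pre h with h | h
  · have := in_B h; norm_num at this
  · apply not2; norm_num at h ⊢; exact h

lemma not1' : (⟨1/4, 1/4⟩ : ℂ) ∉ L := by
  intro h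
  rcases pre h with h | h
  · apply half_not; norm_num at h ⊢; exact h
  · have := in_B h; norm_num at this

lemma not2' : (⟨0, 1/4⟩ : ℂ) ∉ L := by
  intro h
  rcases pre h with h | h
  · apply not1'; norm_num at h ⊢; exact h
  · have := in_B h; norm_num at this

lemma not3' : (⟨-1/8, 1/8⟩ : ℂ) ∉ L := by
  intro h
  rcases pre h with h | h
  · apply not2'; norm_num at h ⊢; exact h
  · have := in_B h; norm_num at this

lemma p_not : (⟨1/2, 5/8⟩ : ℂ) ∉ L := by
  intro h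
  rcases pre h with h | h
  · apply not3; norm_num at h ⊢; exact h
  · apply not3'; norm_num at h ⊢; exact h

lemma hasHole : HasHole L := by
  refine ⟨⟨1/2, 5/8⟩, p_not, ?_⟩
  set C := connectedComponentIn Lᶜ (⟨1/2, 5/8⟩ : ℂ) with hC
  have hp : (⟨1/2, 5/8⟩ : ℂ) ∈ C := mem_connectedComponentIn p_not
  have hsub : C ⊆ Lᶜ := connectedComponentIn_subset _ _
  have hpre : IsPreconnected C := isPreconnected_connectedComponentIn
  have hN : ∀ z ∈ C, N z < 1 := by
    intro z hz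
    by_contra hlt
    push Not at hlt
    have h0 : N ⟨1/2, 5/8⟩ = 0 := by unfold N; simp
    have := hpre.intermediate_value hp hz N_cont.continuousOn
    obtain ⟨w, hw, hw1⟩ := this (show (1 : ℝ) ∈ Icc (N ⟨1/2, 5/8⟩) (N z) from
      ⟨by rw [h0]; norm_num, hlt⟩)
    exact hsub hw (ring_L hw1)
  rw [Metric.isBounded_iff_subset_closedBall (⟨1/2, 5/8⟩ : ℂ)]
  refine ⟨1, fun z hz => ?_⟩
  rw [mem_closedBall_iff_norm]
  refine (Complex.norm_le_abs_re_add_abs_im _).trans ?_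
  have h1 := hN z hz
  unfold N at h1
  have h3 := le_max_right (max (4 * |z.re - 1/2|) (4 * |z.im - 5/8|))
    (8/3 * (|z.re - 1/2| + |z.im - 5/8|))
  simp only [Complex.sub_re, Complex.sub_im]
  have h4 : 0 ≤ |z.re - 1/2| + |z.im - 5/8| := by positivity
  linarith

end Levy

end Pool.Agent.K7.H21.Rep
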