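import Pool.Agent.K7.H21.Rep.Defs

set_option autoImplicit false

/-!
# The area of similar sets
-/

namespace Pool.Agent.K7.H21.Rep

open Set Complex MeasureTheory Module
open scoped Pointwise MeasureTheory

/-- an isometry invariant area -/
noncomputable def area : Measure ℂ := μH[(finrank ℝ ℂ : ℕ)]

instance : area.IsAddHaarMeasure := by unfold area; infer_instance

lemma area_isom (g : ℂ ≃ᵢ ℂ) (s : Set ℂ) : area (g '' s) = area s :=
  g.hausdorffMeasure_image _ _

lemma area_smul {r : ℝ} (hr : 0 ≤ r) (s : Set ℂ) : area (r • s) = ENNReal.ofReal (r ^ 2) * area s := by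
  rw [Measure.addHaar_smul_of_nonneg _ hr, Complex.finrank_real_complex]

lemma area_lt_top {s : Set ℂ} (h : Bornology.IsBounded s) : area s < ⊤ := h.measure_lt_top

lemma area_pos {s : Set ℂ} (h : IsOpen s) (hne : s.Nonempty) : 0 < area s := h.measure_pos _ hne

end Pool.Agent.K7.H21.Rep
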