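import Pool.Agent.K7.H21.Rep.Levy
import Pool.Agent.K7.H21.Rep.Meas

set_option autoImplicit false
set_option linter.unusedSimpArgs false

/-!
# The dragon of Lévy is a 2-reptile
-/

namespace Pool.Agent.K7.H21.Rep

open Set Complex MeasureTheory
open scoped Pointwise

namespace Levy

/-- Gaussian integers in the plane -/
def GI : Set ℂ := {z | ∃ a b : ℤ, z = (a : ℂ) + b * I}

lemma GI_add {z w : ℂ} (hz : z ∈ GI) (hw : w ∈ GI) : z + w ∈ GI := by
  obtain ⟨a, b, rfl⟩ := hz
  obtain ⟨c, d, rfl⟩ := hw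
  exact ⟨a + c, b + d, by push_cast; ring⟩

/-- the four rotated copies -/
def K4 : Set ℂ := ⋃ k : Fin 4, (fun z => I ^ (k : ℕ) * z) '' L

lemma K4_compact : IsCompact K4 :=
  isCompact_iUnion fun k => L_compact.image (by fun_prop)

/-- all the copies at the Gaussian integers -/
def S : Set ℂ := ⋃ p : (ℤ × ℤ) × Fin 4, (fun z => ((p.1.1 : ℂ) + p.1.2 * I) + I ^ (p.2 : ℕ) * z) '' L

lemma S_mem {a b : ℤ} {k : Fin 4} {z : ℂ} (hz : z ∈ L) :
    ((a : ℂ) + b * I) + I ^ (k : ℕ) * z ∈ S :=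
  mem_iUnion.2 ⟨((a, b), k), z, hz, rfl⟩

lemma GI_closed : IsClosed GI := by
  have h1 : GI = (fun z : ℂ => z.re) ⁻¹' (range ((↑) : ℤ → ℝ)) ∩
      (fun z : ℂ => z.im) ⁻¹' (range ((↑) : ℤ → ℝ)) := by
    ext z
    constructor
    · rintro ⟨a, b, rfl⟩
      refine ⟨⟨a, ?_⟩, ⟨b, ?_⟩⟩ <;> simp
    · rintro ⟨⟨a, ha⟩, ⟨b, hb⟩⟩
      refine ⟨a, b, ?_⟩
      apply Complex.ext
      · simp; exact ha.symm
      · simp; exact hb.symm
  rw [h1]
  have h2 : IsClosed (range ((↑) : ℤ → ℝ)) := Int.isClosedEmbedding_coe_real.isClosed_range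
  exact (h2.preimage Complex.continuous_re).inter (h2.preimage Complex.continuous_im)

lemma S_eq : S = GI + K4 := by
  ext z
  constructor
  · intro h
    obtain ⟨⟨⟨a, b⟩, k⟩, w, hw, rfl⟩ := mem_iUnion.1 h
    exact Set.add_mem_add ⟨a, b, rfl⟩ (mem_iUnion.2 ⟨k, w, hw, rfl⟩)
  · intro h
    obtain ⟨x, ⟨a, b, rfl⟩, y, hy, rfl⟩ := Set.mem_add.1 h
    obtain ⟨k, w, hw, rfl⟩ := mem_iUnion.1 hy
    exact S_mem hw

lemma S_closed : IsClosed S := by
  rw [S_eq]
  exact GI_closed.add_right_of_isCompact K4_compact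

/-- the expansion factor -/
noncomputable def β : ℂ := 1 - I

lemma β_ne : β ≠ 0 := by
  unfold β
  intro h
  have := congrArg Complex.re h
  simp at this

lemma β_norm : ‖β‖ = √2 := by
  unfold β
  rw [Complex.norm_eq_sqrt_sq_add_sq]
  simp
  norm_num

lemma I_pow_mod (n : ℕ) : I ^ n = I ^ (n % 4) := by
  conv_lhs => rw [← Nat.div_add_mod n 4]
  rw [pow_add, pow_mul, Complex.I_pow_four, one_pow, one_mul]

lemma S_mem' {a b : ℤ} {k : ℕ} {z : ℂ} (hz : z ∈ L) :
    ((a : ℂ) + b * I) + I ^ k * z ∈ S := by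
  rw [I_pow_mod]
  exact S_mem (k := ⟨k % 4, Nat.mod_lt _ (by norm_num)⟩) hz

/-- parity of the base point -/
lemma half_int (a b : ℤ) (h : Even (a + b)) : ∃ c d : ℤ, (a : ℂ) + b * I = β * (c + d * I) := by
  obtain ⟨m, hm⟩ := h
  refine ⟨a - m, m, ?_⟩
  have hb : b = m + m - a := by omega
  subst hb
  unfold β
  push_cast
  ring_nf
  simp only [Complex.I_sq]
  ring

lemma I_pow_form (k : ℕ) : ∃ c d : ℤ, I ^ k = (c : ℂ) + d * I ∧ Odd (c + d) := by
  induction k with
  | zero => exact ⟨1, 0, by simp, by decide⟩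
  | succ k ih =>
    obtain ⟨c, d, h1, h2⟩ := ih
    refine ⟨-d, c, ?_, ?_⟩
    · rw [pow_succ, h1]
      push_cast
      ring_nf
      simp only [Complex.I_sq]
      ring
    · have : -d + c = (c + d) - 2 * d := by ring
      rw [this]
      exact h2.sub_even (even_two_mul d)

lemma S_scale {z : ℂ} (hz : z ∈ S) : β⁻¹ * z ∈ S := by
  obtain ⟨⟨⟨a, b⟩, k⟩, w, hw, rfl⟩ := mem_iUnion.1 hz
  dsimp only
  have hI3 : ∀ x : ℂ, I ^ ((k : ℕ) + 1) * x = I ^ (k : ℕ) * (I * x) := fun x => by ring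
  rcases Int.even_or_odd (a + b) with h | h
  · obtain ⟨c, d, hcd⟩ := half_int a b h
    have e : β⁻¹ * (((a : ℂ) + b * I) + I ^ (k : ℕ) * w) =
        ((c : ℂ) + d * I) + I ^ (k : ℕ) * f1 w := by
      have h2 : f1 w = β⁻¹ * w := by
        rw [eq_inv_mul_iff_mul_eq₀ β_ne]
        unfold f1 β
        have : (1 - I) * (w * ((1 + I) / 2)) = w * ((1 - I ^ 2) / 2) := by ring
        rw [this, Complex.I_sq]
        ring
      rw [h2, hcd, mul_add, ← mul_assoc β⁻¹ β, inv_mul_cancel₀ β_ne]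
      ring
    rw [e]
    exact S_mem' (f1_mem hw)
  · -- odd base point
    obtain ⟨p', q', h1', h2'⟩ := I_pow_form ((k : ℕ) + 1)
    have hev : Even ((a - p') + (b - q')) := by
      have : (a - p') + (b - q') = (a + b) - (p' + q') := by ring
      rw [this]
      exact h.sub_odd h2'
    obtain ⟨c, d, hcd⟩ := half_int (a - p') (b - q') hev
    have hab : (a : ℂ) + b * I = β * (c + d * I) + I ^ ((k : ℕ) + 1) := by
      rw [h1', ← hcd]
      push_cast
      ring
    have e : β⁻¹ * (((a : ℂ) + b * I) + I ^ (k : ℕ) * w) =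
        ((c : ℂ) + d * I) + I ^ ((k : ℕ) + 1) * f2 w := by
      rw [inv_mul_eq_iff_eq_mul₀ β_ne, hab]
      have h3 : β * (I ^ ((k : ℕ) + 1) * f2 w) = I ^ ((k : ℕ) + 1) * (β * f2 w) := by ring
      have h4 : β * f2 w = 1 - I * w := by
        unfold β f2
        have : (1 - I) * ((1 + I) / 2 + w * ((1 - I) / 2)) =
            (1 - I ^ 2) / 2 + w * ((1 - 2 * I + I ^ 2) / 2) := by ring
        rw [this, Complex.I_sq]
        ring
      have h5 : I ^ ((k : ℕ) + 1) * (I * w) = - (I ^ (k : ℕ) * w) := by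
        have : I ^ ((k : ℕ) + 1) * (I * w) = I ^ (k : ℕ) * w * I ^ 2 := by ring
        rw [this, Complex.I_sq]; ring
      calc β * ((c : ℂ) + d * I) + I ^ ((k : ℕ) + 1) + I ^ (k : ℕ) * w
          = β * ((c : ℂ) + d * I) + (I ^ ((k : ℕ) + 1) - I ^ ((k : ℕ) + 1) * (I * w)) := by
            rw [h5]; ring
        _ = β * ((c : ℂ) + d * I) + β * (I ^ ((k : ℕ) + 1) * f2 w) := by
            rw [h3, h4]; ring
        _ = β * ((c : ℂ) + d * I + I ^ ((k : ℕ) + 1) * f2 w) := by ring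
    rw [e]
    exact S_mem' (f2_mem hw)

lemma S_scale_pow {z : ℂ} (hz : z ∈ S) (m : ℕ) : β⁻¹ ^ m * z ∈ S := by
  induction m with
  | zero => simpa using hz
  | succ m ih => rw [pow_succ', mul_assoc]; exact S_scale ih

lemma GI_sub_S {a b : ℤ} : (a : ℂ) + b * I ∈ S := by
  have := S_mem' (a := a) (b := b) (k := 0) zero_mem
  simpa using this

lemma near_GI (z : ℂ) : ∃ a b : ℤ, ‖z - ((a : ℂ) + b * I)‖ ≤ 1 := by
  refine ⟨round z.re, round z.im, ?_⟩
  refine (Complex.norm_le_abs_re_add_abs_im _).trans ?_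
  have h1 := abs_sub_round z.re
  have h2 := abs_sub_round z.im
  simp only [Complex.sub_re, Complex.sub_im, Complex.add_re, Complex.add_im, Complex.intCast_re,
    Complex.intCast_im, Complex.mul_re, Complex.mul_im, Complex.I_re, Complex.I_im]
  simp only [mul_zero, mul_one, sub_zero, zero_sub, add_zero, zero_add, neg_zero]
  linarith

lemma S_univ : S = univ := by
  rw [← S_closed.closure_eq]
  rw [eq_univ_iff_forall]
  intro z
  rw [Metric.mem_closure_iff]
  intro ε hε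
  have hb : ‖β⁻¹‖ < 1 := by
    rw [norm_inv, β_norm]
    apply inv_lt_one_of_one_lt₀
    rw [Real.lt_sqrt (by norm_num)]
    norm_num
  obtain ⟨m, hm⟩ := exists_pow_lt_of_lt_one hε hb
  obtain ⟨a, b, hab⟩ := near_GI (β ^ m * z)
  refine ⟨β⁻¹ ^ m * (a + b * I), S_scale_pow GI_sub_S m, ?_⟩
  rw [dist_eq_norm]
  have e : z - β⁻¹ ^ m * ((a : ℂ) + b * I) = β⁻¹ ^ m * (β ^ m * z - (a + b * I)) := by
    rw [mul_sub, ← mul_assoc, ← mul_pow, inv_mul_cancel₀ β_ne, one_pow, one_mul]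
  rw [e, norm_mul, norm_pow]
  calc ‖β⁻¹‖ ^ m * ‖β ^ m * z - (a + b * I)‖ ≤ ‖β⁻¹‖ ^ m * 1 := by gcongr
    _ < ε := by rw [mul_one]; exact hm

/-- similarities as homeomorphisms -/
noncomputable def simil (a b : ℂ) (ha : a ≠ 0) : ℂ ≃ₜ ℂ :=
  (Homeomorph.mulLeft₀ a ha).trans (Homeomorph.addLeft b)

lemma simil_apply (a b : ℂ) (ha : a ≠ 0) (z : ℂ) : simil a b ha z = b + a * z := rfl

lemma L_interior : (interior L).Nonempty := by
  have h1 : (⋃ p : (ℤ × ℤ) × Fin 4,
      (fun z => ((p.1.1 : ℂ) + p.1.2 * I) + I ^ (p.2 : ℕ) * z) '' L) = univ := S_univ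
  have hne : ∀ n : ℕ, I ^ n ≠ 0 := fun n => pow_ne_zero _ Complex.I_ne_zero
  have hI : ∀ p : (ℤ × ℤ) × Fin 4, (fun z => ((p.1.1 : ℂ) + p.1.2 * I) + I ^ (p.2 : ℕ) * z) '' L =
      simil (I ^ (p.2 : ℕ)) ((p.1.1 : ℂ) + p.1.2 * I) (hne _) '' L := fun p => rfl
  obtain ⟨p, hp⟩ := nonempty_interior_of_iUnion_of_closed (fun p => by
    rw [hI p]
    exact ((simil _ _ (hne _)).isClosedMap _ L_compact.isClosed)) h1
  rw [hI p, ← Homeomorph.image_interior] at hp
  exact (image_nonempty.1 hp)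

lemma f1_eq (z : ℂ) : f1 z = simil ((1 + I) / 2) 0 (by
    intro h; have := congrArg Complex.re h; simp at this) z := by
  rw [simil_apply]; unfold f1; ring

lemma f2_eq (z : ℂ) : f2 z = simil ((1 - I) / 2) ((1 + I) / 2) (by
    intro h; have := congrArg Complex.re h; simp at this) z := by
  rw [simil_apply]; unfold f2; ring

lemma f1_int {z : ℂ} (h : z ∈ interior L) : f1 z ∈ interior L := by
  have h1 : f1 = simil ((1 + I) / 2) 0 (by
    intro h; have := congrArg Complex.re h; simp at this) := funext f1_eq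
  have h2 : IsOpen (f1 '' interior L) := by
    rw [h1]; exact (Homeomorph.isOpenMap _) _ isOpen_interior
  refine (interior_maximal ?_ h2) (mem_image_of_mem _ h)
  rintro _ ⟨w, hw, rfl⟩
  exact f1_mem (interior_subset hw)

lemma f2_int {z : ℂ} (h : z ∈ interior L) : f2 z ∈ interior L := by
  have h1 : f2 = simil ((1 - I) / 2) ((1 + I) / 2) (by
    intro h; have := congrArg Complex.re h; simp at this) := funext f2_eq
  have h2 : IsOpen (f2 '' interior L) := by
    rw [h1]; exact (Homeomorph.isOpenMap _) _ isOpen_interior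
  refine (interior_maximal ?_ h2) (mem_image_of_mem _ h)
  rintro _ ⟨w, hw, rfl⟩
  exact f2_mem (interior_subset hw)

lemma norm_a : ‖(1 + I) / 2‖ = 1 / √2 := by
  rw [norm_div, Complex.norm_eq_sqrt_sq_add_sq]
  simp
  have h : (0 : ℝ) < √2 := by positivity
  field_simp
  rw [show (1 + 1 : ℝ) = 2 by norm_num, Real.mul_self_sqrt (by norm_num)]

lemma norm_a' : ‖(1 - I) / 2‖ = 1 / √2 := by
  rw [norm_div, Complex.norm_eq_sqrt_sq_add_sq]
  simp
  have h : (0 : ℝ) < √2 := by positivity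
  field_simp
  rw [show (1 + 1 : ℝ) = 2 by norm_num, Real.mul_self_sqrt (by norm_num)]

lemma dist_f1 (z w : ℂ) : dist (f1 z) (f1 w) = 1 / √2 * dist z w := by
  rw [dist_eq_norm, dist_eq_norm]
  unfold f1
  rw [← sub_mul, norm_mul, norm_a, mul_comm]

lemma dist_f2 (z w : ℂ) : dist (f2 z) (f2 w) = 1 / √2 * dist z w := by
  rw [dist_eq_norm, dist_eq_norm]
  unfold f2
  rw [add_sub_add_left_eq_sub, ← sub_mul, norm_mul, norm_a', mul_comm]

lemma approx (m : ℕ) : ∀ x ∈ L, ∃ y ∈ interior L, dist x y ≤ (1 / √2) ^ m * Metric.diam L := by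
  induction m with
  | zero =>
    intro x hx
    obtain ⟨y, hy⟩ := L_interior
    refine ⟨y, hy, ?_⟩
    rw [pow_zero, one_mul]
    exact Metric.dist_le_diam_of_mem L_compact.isBounded hx (interior_subset hy)
  | succ m ih =>
    intro x hx
    rw [L_eq] at hx
    rcases hx with ⟨x', hx', rfl⟩ | ⟨x', hx', rfl⟩
    · obtain ⟨y, hy, hd⟩ := ih x' hx'
      refine ⟨f1 y, f1_int hy, ?_⟩
      rw [dist_f1, pow_succ', mul_assoc]
      gcongr
    · obtain ⟨y, hy, hd⟩ := ih x' hx'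
      refine ⟨f2 y, f2_int hy, ?_⟩
      rw [dist_f2, pow_succ', mul_assoc]
      gcongr

lemma L_tile : IsTile L := by
  refine ⟨L_compact.isBounded, ?_⟩
  apply Subset.antisymm
  · exact closure_minimal interior_subset L_compact.isClosed
  · intro x hx
    rw [Metric.mem_closure_iff]
    intro ε hε
    have h1 : (1 / √2 : ℝ) < 1 := by
      rw [div_lt_one (by positivity), Real.lt_sqrt (by norm_num)]
      norm_num
    have h0 : (0 : ℝ) ≤ Metric.diam L := Metric.diam_nonneg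
    obtain ⟨m, hm⟩ := exists_pow_lt_of_lt_one (show 0 < ε / (Metric.diam L + 1) by positivity) h1
    obtain ⟨y, hy, hd⟩ := approx m x hx
    refine ⟨y, hy, hd.trans_lt ?_⟩
    calc (1 / √2) ^ m * Metric.diam L ≤ (1 / √2) ^ m * (Metric.diam L + 1) := by gcongr; linarith
      _ < ε / (Metric.diam L + 1) * (Metric.diam L + 1) := by gcongr
      _ = ε := by field_simp

/-- the isometry `z ↦ b + a z`, `|a| = 1` -/
noncomputable def isom (a b : ℂ) (ha : ‖a‖ = 1) : ℂ ≃ᵢ ℂ where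
  toFun z := b + a * z
  invFun z := a⁻¹ * (z - b)
  left_inv z := by
    have : a ≠ 0 := by rintro rfl; simp at ha
    field_simp
    ring
  right_inv z := by
    have : a ≠ 0 := by rintro rfl; simp at ha
    field_simp
    ring
  isometry_toFun := Isometry.of_dist_eq fun z w => by
    rw [dist_eq_norm, dist_eq_norm, add_sub_add_left_eq_sub, ← mul_sub, norm_mul, ha, one_mul]

lemma isom_apply (a b : ℂ) (ha : ‖a‖ = 1) (z : ℂ) : isom a b ha z = b + a * z := rfl

lemma norm_u : ‖(√2 : ℂ) * ((1 + I) / 2)‖ = 1 := by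
  rw [norm_mul, norm_a, Complex.norm_real, Real.norm_of_nonneg (by positivity)]
  have h : (0 : ℝ) < √2 := by positivity
  field_simp

lemma norm_u' : ‖(√2 : ℂ) * ((1 - I) / 2)‖ = 1 := by
  rw [norm_mul, norm_a', Complex.norm_real, Real.norm_of_nonneg (by positivity)]
  have h : (0 : ℝ) < √2 := by positivity
  field_simp

/-- the two isometries -/
noncomputable def g (k : Fin 2) : ℂ ≃ᵢ ℂ :=
  if k = 0 then isom ((√2 : ℂ) * ((1 + I) / 2)) 0 norm_u
  else isom ((√2 : ℂ) * ((1 - I) / 2)) ((1 + I) / 2) norm_u'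

lemma sqrt_cast : ((√2 : ℝ) : ℂ) ≠ 0 := by
  rw [Complex.ofReal_ne_zero]
  positivity

lemma g0 : g 0 '' ((1 / √((2 : ℕ) : ℝ)) • L) = f1 '' L := by
  rw [← image_smul, image_image]
  apply image_congr
  intro z _
  unfold g f1
  rw [if_pos rfl, isom_apply, Complex.real_smul]
  push_cast
  have := sqrt_cast
  field_simp
  ring

lemma g1 : g 1 '' ((1 / √((2 : ℕ) : ℝ)) • L) = f2 '' L := by
  rw [← image_smul, image_image]
  apply image_congr
  intro z _
  unfold g f2
  rw [if_neg (by decide), isom_apply, Complex.real_smul]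
  push_cast
  have := sqrt_cast
  field_simp

lemma area_f1 : area (f1 '' L) = ENNReal.ofReal (1 / 2) * area L := by
  rw [← g0, area_isom, area_smul (by positivity)]
  congr 2
  rw [div_pow, one_pow, Real.sq_sqrt (by positivity)]
  norm_num

lemma area_f2 : area (f2 '' L) = ENNReal.ofReal (1 / 2) * area L := by
  rw [← g1, area_isom, area_smul (by positivity)]
  congr 2
  rw [div_pow, one_pow, Real.sq_sqrt (by positivity)]
  norm_num

lemma disj : Disjoint (interior (f1 '' L)) (interior (f2 '' L)) := by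
  have hfin : area L < ⊤ := area_lt_top L_compact.isBounded
  have h1 : area (f1 '' L ∪ f2 '' L) + area (f1 '' L ∩ f2 '' L) = area (f1 '' L) + area (f2 '' L) :=
    measure_union_add_inter _ (L_compact.image f2_cont).isClosed.measurableSet
  have h2 : area (f1 '' L) + area (f2 '' L) = area L := by
    rw [area_f1, area_f2, ← add_mul, ← ENNReal.ofReal_add (by norm_num) (by norm_num)]
    norm_num
  have h3 : area (f1 '' L ∪ f2 '' L) = area L := by
    conv_rhs => rw [L_eq]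
    rfl
  rw [h2, h3] at h1
  have h4 : area (f1 '' L ∩ f2 '' L) = 0 := by
    have : area L + area (f1 '' L ∩ f2 '' L) = area L + 0 := by rw [h1, add_zero]
    exact (ENNReal.add_right_inj hfin.ne).1 this
  rw [disjoint_iff_inter_eq_empty, ← interior_inter]
  by_contra hne
  have h5 := area_pos isOpen_interior (nonempty_iff_ne_empty.2 hne)
  have h6 := measure_mono (μ := area) (interior_subset (s := f1 '' L ∩ f2 '' L))
  rw [h4] at h6
  exact absurd h6 (not_le.2 h5)

theorem L_reptile : IsNReptile 2 L := by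
  refine ⟨le_rfl, L_tile, g, ?_, ?_⟩
  · have h : (⋃ i : Fin 2, g i '' ((1 / √((2 : ℕ) : ℝ)) • L)) = f1 '' L ∪ f2 '' L := by
      ext z
      rw [mem_iUnion, Fin.exists_fin_two, g0, g1]
      rfl
    rw [h]
    exact L_eq
  · intro i j hij
    have : (i = 0 ∧ j = 1) ∨ (i = 1 ∧ j = 0) := by
      fin_cases i <;> fin_cases j <;> simp at hij ⊢
    rcases this with ⟨rfl, rfl⟩ | ⟨rfl, rfl⟩
    · rw [g0, g1]; exact disj
    · rw [g0, g1]; exact disj.symm

end Levy

end Pool.Agent.K7.H21.Rep
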